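import Mathlib.Algebra.Polynomial.Derivative
import Mathlib.Algebra.Polynomial.Eval.Defs
import Mathlib.Data.Complex.Basic

/-!
Polynomial solutions of the double confluent Heun equation of the Josephson model.
-/

open Polynomial

namespace Pool.Agent.Work.MP_e0279d_an

/-- With `l = B / ω`, `μ = A / (2 ω)`, `λ = 1 / (4 ω ^ 2) - μ ^ 2`, the equation
`z² E'' + ((1 - l) z + μ (1 - z²)) E' + (λ + μ (l - 1) z) E = 0` has a nonzero polynomial
solution. -/
def HasPolySol (ω B A : ℝ) : Prop :=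
  ∃ E : ℂ[X], E ≠ 0 ∧ ∀ z : ℂ,
    z ^ 2 * (derivative (derivative E)).eval z +
      ((1 - (B / ω : ℝ)) * z + (A / (2 * ω) : ℝ) * (1 - z ^ 2)) * (derivative E).eval z +
      ((1 / (4 * ω ^ 2) - (A / (2 * ω)) ^ 2 : ℝ) + (A / (2 * ω) : ℝ) * ((B / ω : ℝ) - 1) * z) *
        E.eval z = 0

end Pool.Agent.Work.MP_e0279d_an
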