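import Pool.Agent.Work.MP_e0279d_an.Defs
import Mathlib.Algebra.Polynomial.Roots
import Mathlib.LinearAlgebra.AffineSpace.FiniteDimensional
import Mathlib.Topology.Order.IntermediateValue
import Mathlib.Analysis.SpecialFunctions.Pow.Real
import Mathlib.Tactic.LinearCombination

open Polynomial

namespace Pool.Agent.Work.MP_e0279d_an

/-- The equation with abstract parameters. -/
def Sol (l m lam : ℂ) (E : ℂ[X]) : Prop :=
  ∀ z : ℂ, z ^ 2 * (derivative (derivative E)).eval z +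
    ((1 - l) * z + m * (1 - z ^ 2)) * (derivative E).eval z + (lam + m * (l - 1) * z) * E.eval z = 0

lemma Sol.poly {l m lam : ℂ} {E : ℂ[X]} (h : Sol l m lam E) :
    X * (X * derivative (derivative E)) + C (1 - l) * (X * derivative E) + C m * derivative E -
      C m * (X * (X * derivative E)) + C lam * E + C (m * (l - 1)) * (X * E) = 0 := by
  apply Polynomial.funext
  intro z
  have := h z
  simp only [eval_add, eval_sub, eval_mul, eval_X, eval_C, eval_zero]
  linear_combination this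

lemma Sol.rec0 {l m lam : ℂ} {E : ℂ[X]} (h : Sol l m lam E) :
    m * E.coeff 1 + lam * E.coeff 0 = 0 := by
  have := congrArg (fun p => coeff p 0) h.poly
  simp only [coeff_add, coeff_sub, coeff_C_mul, coeff_X_mul_zero, coeff_derivative,
    coeff_zero] at this
  push_cast at this
  linear_combination this

lemma Sol.rec1 {l m lam : ℂ} {E : ℂ[X]} (h : Sol l m lam E) :
    2 * m * E.coeff 2 + (1 - l + lam) * E.coeff 1 + m * (l - 1) * E.coeff 0 = 0 := by
  have := congrArg (fun p => coeff p (0 + 1)) h.poly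
  simp only [coeff_add, coeff_sub, coeff_C_mul, coeff_X_mul, coeff_X_mul_zero, coeff_derivative,
    coeff_zero] at this
  push_cast at this
  linear_combination this

lemma Sol.rec2 {l m lam : ℂ} {E : ℂ[X]} (h : Sol l m lam E) (k : ℕ) :
    m * (k + 3) * E.coeff (k + 3) + ((k + 2) * (k + 2 - l) + lam) * E.coeff (k + 2) +
      m * (l - k - 2) * E.coeff (k + 1) = 0 := by
  have := congrArg (fun p => coeff p (k + 1 + 1)) h.poly
  simp only [coeff_add, coeff_sub, coeff_C_mul, coeff_X_mul, coeff_derivative,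
    coeff_zero] at this
  push_cast at this
  simp only [add_assoc, Nat.reduceAdd] at this ⊢
  linear_combination this

lemma Sol.natDegree_lt {n : ℕ} (hn : 1 ≤ n) {m lam : ℂ} (hm : m ≠ 0) {E : ℂ[X]} (hE : E ≠ 0)
    (h : Sol n m lam E) : E.natDegree < n := by
  by_contra hcon
  push Not at hcon
  obtain ⟨k, hk⟩ : ∃ k, E.natDegree = k + 1 := ⟨E.natDegree - 1, by omega⟩
  have h1 := h.rec2 k
  rw [coeff_eq_zero_of_natDegree_lt (by omega : E.natDegree < k + 3),
    coeff_eq_zero_of_natDegree_lt (by omega : E.natDegree < k + 2), ← hk] at h1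
  have h3 : ((n : ℂ) - k - 2) ≠ 0 := by
    intro h0
    have : (n : ℂ) = ((k + 2 : ℕ) : ℂ) := by push_cast; linear_combination h0
    have := Nat.cast_injective this
    omega
  simp [hm, hE, h3] at h1

lemma eq_zero_of_coeffs {E : ℂ[X]} (hd : E.natDegree < 3) (h0 : E.coeff 0 = 0)
    (h1 : E.coeff 1 = 0) (h2 : E.coeff 2 = 0) : E = 0 := by
  ext n
  rcases n with _ | _ | _ | n
  · simpa using h0
  · simpa using h1
  · simpa using h2
  · simpa using coeff_eq_zero_of_natDegree_lt (by omega)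

lemma Sol.coeff_zero_ne {l m lam : ℂ} (hm : m ≠ 0) {E : ℂ[X]} (hE : E ≠ 0) (hd : E.natDegree < 3)
    (h : Sol l m lam E) : E.coeff 0 ≠ 0 := by
  intro h0
  have h1 : E.coeff 1 = 0 := by simpa [h0, hm] using h.rec0
  have h2 : E.coeff 2 = 0 := by simpa [h0, h1, hm] using h.rec1
  exact hE (eq_zero_of_coeffs hd h0 h1 h2)

lemma sol_one {m lam : ℂ} (hm : m ≠ 0) : (∃ E, E ≠ 0 ∧ Sol 1 m lam E) ↔ lam = 0 := by
  constructor
  · rintro ⟨E, hE, h⟩
    have hd := Sol.natDegree_lt (n := 1) le_rfl hm hE (by simpa using h)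
    have h0 := h.coeff_zero_ne hm hE (by omega)
    have h1 := h.rec0
    rw [coeff_eq_zero_of_natDegree_lt hd] at h1
    simpa [h0] using h1
  · rintro rfl
    exact ⟨1, one_ne_zero, fun z => by simp⟩

lemma sol_two {m lam : ℂ} (hm : m ≠ 0) :
    (∃ E, E ≠ 0 ∧ Sol 2 m lam E) ↔ lam * (lam - 1) = m ^ 2 := by
  constructor
  · rintro ⟨E, hE, h⟩
    have hd := Sol.natDegree_lt (n := 2) (by norm_num) hm hE (by simpa using h)
    have h0 := h.coeff_zero_ne hm hE (by omega)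
    have h1 := h.rec0
    have h2 := h.rec1
    rw [coeff_eq_zero_of_natDegree_lt hd] at h2
    refine mul_right_cancel₀ h0 ?_
    linear_combination (lam - 1) * h1 - m * h2
  · intro h
    refine ⟨C m - C lam * X, ?_, fun z => ?_⟩
    · intro h0
      have := congrArg (fun p => coeff p 0) h0
      simp [hm] at this
    · simp only [derivative_sub, derivative_C, derivative_mul, derivative_X, zero_mul, mul_one,
        zero_add, zero_sub, derivative_neg, neg_zero, eval_zero, eval_neg, eval_C, eval_sub,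
        eval_mul, eval_X]
      linear_combination (-z) * h

lemma sol_three {m lam : ℂ} (hm : m ≠ 0) :
    (∃ E, E ≠ 0 ∧ Sol 3 m lam E) ↔ lam * (lam - 2) ^ 2 = 4 * m ^ 2 * (lam - 1) := by
  constructor
  · rintro ⟨E, hE, h⟩
    have hd := Sol.natDegree_lt (n := 3) (by norm_num) hm hE (by simpa using h)
    have h0 := h.coeff_zero_ne hm hE hd
    have h1 := h.rec0
    have h2 := h.rec1
    have h3 := h.rec2 0
    rw [coeff_eq_zero_of_natDegree_lt hd] at h3
    simp only [Nat.cast_zero, zero_add] at h3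
    refine mul_right_cancel₀ h0 ?_
    linear_combination ((lam - 2) ^ 2 - 2 * m ^ 2) * h1 - m * (lam - 2) * h2 + 2 * m ^ 2 * h3
  · intro h
    refine ⟨C (2 * m ^ 2) - C (2 * m * lam) * X + C (lam * (lam - 2) - 2 * m ^ 2) * (X * X), ?_,
      fun z => ?_⟩
    · intro h0
      have := congrArg (fun p => eval 0 p) h0
      simp [hm] at this
    · simp only [derivative_add, derivative_sub, derivative_C, derivative_mul, derivative_X,
        zero_mul, mul_one, one_mul, zero_add, zero_sub, derivative_neg, neg_zero,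
        eval_neg, eval_C, eval_sub, eval_mul, eval_X, eval_add, eval_one]
      linear_combination (z ^ 2) * h

lemma hasPolySol_iff {ω : ℝ} (hω : 0 < ω) (n : ℕ) (A : ℝ) :
    HasPolySol ω (n * ω) A ↔ ∃ E, E ≠ 0 ∧
      Sol n (A / (2 * ω) : ℝ) (1 / (4 * ω ^ 2) - (A / (2 * ω)) ^ 2 : ℝ) E := by
  unfold HasPolySol Sol
  rw [mul_div_assoc, div_self hω.ne', mul_one]
  simp only [Complex.ofReal_natCast]

lemma mu_ne {ω A : ℝ} (hω : 0 < ω) (hA : 0 < A) : ((A / (2 * ω) : ℝ) : ℂ) ≠ 0 := by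
  rw [Complex.ofReal_ne_zero]; positivity

lemma poly_one {ω A : ℝ} (hω : 0 < ω) (hA : 0 < A) :
    HasPolySol ω ((1 : ℕ) * ω) A ↔ A ^ 2 = 1 := by
  rw [hasPolySol_iff hω, Nat.cast_one, sol_one (mu_ne hω hA), Complex.ofReal_eq_zero]
  constructor
  · intro h; field_simp at h; linarith
  · intro h; field_simp; linarith

lemma poly_two {ω A : ℝ} (hω : 0 < ω) (hA : 0 < A) :
    HasPolySol ω ((2 : ℕ) * ω) A ↔ (1 - A ^ 2) ^ 2 = 4 * ω ^ 2 := by
  rw [hasPolySol_iff hω, Nat.cast_ofNat, sol_two (mu_ne hω hA)]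
  norm_cast
  constructor
  · intro h; field_simp at h; linarith
  · intro h; field_simp; linarith

lemma poly_three {ω A : ℝ} (hω : 0 < ω) (hA : 0 < A) :
    HasPolySol ω ((3 : ℕ) * ω) A ↔
      (1 - A ^ 2) ^ 3 - 16 * ω ^ 2 * (1 - A ^ 2) + 64 * ω ^ 4 = 0 := by
  rw [hasPolySol_iff hω, Nat.cast_ofNat, sol_three (mu_ne hω hA)]
  norm_cast
  constructor
  · intro h; field_simp at h; linarith
  · intro h; field_simp; linarith

lemma greatest_one {ω : ℝ} (hω : 0 < ω) : IsGreatest {A | HasPolySol ω ((1 : ℕ) * ω) A} 1 := by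
  refine ⟨(poly_one hω one_pos).2 (by norm_num), fun A hA => ?_⟩
  by_contra hlt
  push Not at hlt
  have := (poly_one hω (by linarith)).1 hA
  nlinarith

lemma greatest_two {ω s : ℝ} (hω : 0 < ω) (hs : 0 < s) (hs2 : s ^ 2 = 1 + 2 * ω) :
    IsGreatest {A | HasPolySol ω ((2 : ℕ) * ω) A} s := by
  refine ⟨(poly_two hω hs).2 (by rw [hs2]; ring), fun A hA => ?_⟩
  by_contra hlt
  push Not at hlt
  have h1 := (poly_two hω (by linarith)).1 hA
  have h2 : s ^ 2 < A ^ 2 := by nlinarith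
  nlinarith

lemma greatest_three {ω : ℝ} (hω : 0 < ω) : ∃ a, 1 < a ∧
    (1 - a ^ 2) ^ 3 - 16 * ω ^ 2 * (1 - a ^ 2) + 64 * ω ^ 4 = 0 ∧
    IsGreatest {A | HasPolySol ω ((3 : ℕ) * ω) A} a := by
  let q : ℝ → ℝ := fun u => u ^ 3 - 16 * ω ^ 2 * u - 64 * ω ^ 4
  have hq : Continuous q := by fun_prop
  have h0 : q 0 < 0 := by simp only [q]; have := pow_pos hω 4; nlinarith
  have h1 : 0 < q (4 * ω + 4 * ω ^ 2 + 1) := by
    simp only [q]
    have h2 := pow_pos hω 2
    have h3 := pow_pos hω 3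
    have h4 := pow_pos hω 4
    have h5 := pow_pos hω 5
    have h6 := pow_pos hω 6
    nlinarith
  obtain ⟨u, ⟨hu0, -⟩, hu⟩ := intermediate_value_Ioo (by positivity : (0 : ℝ) ≤ 4 * ω + 4 * ω ^ 2 + 1)
    hq.continuousOn ⟨h0, h1⟩
  simp only [q] at hu
  have hsq : Real.sqrt (1 + u) ^ 2 = 1 + u := Real.sq_sqrt (by linarith)
  have ha : 1 < Real.sqrt (1 + u) := Real.lt_sqrt_of_sq_lt (by linarith)
  have heq : (1 - Real.sqrt (1 + u) ^ 2) ^ 3 - 16 * ω ^ 2 * (1 - Real.sqrt (1 + u) ^ 2) +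
      64 * ω ^ 4 = 0 := by
    rw [hsq]; linear_combination (-1) * hu
  refine ⟨_, ha, heq, (poly_three hω (by linarith)).2 heq, fun A hA => ?_⟩
  by_contra hlt
  push Not at hlt
  have h3 := (poly_three hω (by linarith)).1 hA
  have h4 : u < A ^ 2 - 1 := by nlinarith
  set v := A ^ 2 - 1 with hv
  have h5 : v ^ 3 - 16 * ω ^ 2 * v - 64 * ω ^ 4 = 0 := by
    rw [hv]; linear_combination (-1) * h3
  have h6 : 16 * ω ^ 2 < u ^ 2 := by
    by_contra hc
    push Not at hc
    have := pow_pos hω 4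
    nlinarith
  have h7 : (v - u) * (v ^ 2 + v * u + u ^ 2 - 16 * ω ^ 2) = 0 := by
    linear_combination h5 - hu
  rcases mul_eq_zero.1 h7 with h | h
  · linarith
  · nlinarith

theorem main {ω : ℝ} (hω : 0 < ω) :
    ¬ Collinear ℝ {p : ℝ × ℝ | ∃ l : ℕ, 1 ≤ l ∧ p.1 = l * ω ∧
      IsGreatest {A | HasPolySol ω (l * ω) A} p.2} := by
  intro hcol
  set s := Real.sqrt (1 + 2 * ω) with hs
  have hs2 : s ^ 2 = 1 + 2 * ω := Real.sq_sqrt (by linarith)
  have hs1 : 1 < s := Real.lt_sqrt_of_sq_lt (by linarith)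
  obtain ⟨a, ha1, ha, hg⟩ := greatest_three hω
  rw [collinear_iff_exists_forall_eq_smul_vadd] at hcol
  obtain ⟨p, v, hpv⟩ := hcol
  obtain ⟨r₁, h₁⟩ := hpv ((1 : ℕ) * ω, 1) ⟨1, le_rfl, rfl, greatest_one hω⟩
  obtain ⟨r₂, h₂⟩ := hpv ((2 : ℕ) * ω, s)
    ⟨2, by norm_num, rfl, greatest_two hω (by linarith) hs2⟩
  obtain ⟨r₃, h₃⟩ := hpv ((3 : ℕ) * ω, a) ⟨3, by norm_num, rfl, hg⟩
  simp only [Prod.ext_iff, vadd_eq_add, Prod.fst_add, Prod.snd_add, Prod.smul_fst, Prod.smul_snd,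
    smul_eq_mul, Nat.cast_one, Nat.cast_ofNat] at h₁ h₂ h₃
  have hv : v.1 ≠ 0 := by
    intro h0
    rw [h0] at h₁ h₂
    linarith [h₁.1, h₂.1]
  have hr : r₁ + r₃ = 2 * r₂ := by
    refine mul_right_cancel₀ hv ?_
    linarith [h₁.1, h₂.1, h₃.1]
  have hA : a = 2 * s - 1 := by
    have : (r₁ + r₃) * v.2 = 2 * r₂ * v.2 := by rw [hr]
    linarith [h₁.2, h₂.2, h₃.2]
  have hw : ω = (s ^ 2 - 1) / 2 := by linarith
  rw [hA, hw] at ha
  have key : 4 * (s - 1) ^ 5 * (s ^ 3 + 5 * s ^ 2 - s - 1) = 0 := by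
    linear_combination ha
  have h5 : 0 < (s - 1) ^ 5 := pow_pos (by linarith) 5
  have h6 : 0 < s ^ 3 + 5 * s ^ 2 - s - 1 := by nlinarith
  nlinarith [mul_pos h5 h6]

end Pool.Agent.Work.MP_e0279d_an
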